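import Mathlib

set_option autoImplicit false

/-!
# Perfect images of perfect preimages of developable spaces (Isiwata's question)

We give a locally compact Hausdorff space `X`, a perfect map of `X` onto a (locally compact,
Hausdorff, regular) developable space `D`, and a perfect map of `X` onto a locally compact
Hausdorff space `Y`, such that `Y` admits no perfect map onto any developable space.
-/

namespace Pool.Agent.Results.MP_5c431f_gt.IsiwataNegative

open Set Filter Topology

universe u v

/-- A perfect map: continuous, closed, surjective, with compact fibres. -/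
structure PerfectMap {X : Type u} {Y : Type v} [TopologicalSpace X] [TopologicalSpace Y]
    (f : X → Y) : Prop where
  continuous : Continuous f
  isClosedMap : IsClosedMap f
  surjective : Function.Surjective f
  compact_fibre : ∀ y : Y, IsCompact (f ⁻¹' {y})

/-- The star of the point `y` with respect to the family `G`: the union of all members of `G`
containing `y`. -/
def pointStar {Y : Type u} (y : Y) (G : Set (Set Y)) : Set Y := ⋃₀ {U : Set Y | U ∈ G ∧ y ∈ U}

/-- A space is developable if it has a sequence of open covers `G n` such that for every point `y`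
the stars of `y` with respect to the `G n` form a neighbourhood base at `y`. -/
def Developable (Y : Type u) [TopologicalSpace Y] : Prop :=
  ∃ G : ℕ → Set (Set Y),
    (∀ n, (∀ U ∈ G n, IsOpen U) ∧ ⋃₀ (G n) = univ) ∧
    ∀ y : Y, (∀ n, pointStar y (G n) ∈ 𝓝 y) ∧ ∀ N ∈ 𝓝 y, ∃ n, pointStar y (G n) ⊆ N

/-! ### General facts on perfect maps -/

section General

variable {X : Type u} {Y : Type v} [TopologicalSpace X] [TopologicalSpace Y]

theorem PerfectMap.isProperMap {f : X → Y} (hf : PerfectMap f) : IsProperMap f :=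
  isProperMap_iff_isClosedMap_and_compact_fibers.2
    ⟨hf.continuous, hf.isClosedMap, fun {y} => hf.compact_fibre y⟩

/-- If the fibre over `y` lies in the open set `U`, then `y` has an open neighbourhood whose
preimage lies in `U`. -/
theorem PerfectMap.exists_open {f : X → Y} (hf : PerfectMap f) {y : Y} {U : Set X}
    (hU : IsOpen U) (h : f ⁻¹' {y} ⊆ U) : ∃ V : Set Y, IsOpen V ∧ y ∈ V ∧ f ⁻¹' V ⊆ U := by
  refine ⟨(f '' Uᶜ)ᶜ, (hf.isClosedMap _ hU.isClosed_compl).isOpen_compl, ?_, ?_⟩
  · rintro ⟨x, hx, hxy⟩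
    exact hx (h hxy)
  · intro x hx
    by_contra hxU
    exact hx ⟨x, hxU, rfl⟩

theorem PerfectMap.t2Space {f : X → Y} (hf : PerfectMap f) [T2Space X] : T2Space Y := by
  refine ⟨fun y y' hne => ?_⟩
  have hdisj : Disjoint (f ⁻¹' {y}) (f ⁻¹' {y'}) := by
    rw [Set.disjoint_left]
    intro x hx hx'
    exact hne (hx.symm.trans hx')
  obtain ⟨U, U', hU, hU', hyU, hyU', hUU'⟩ :=
    SeparatedNhds.of_isCompact_isCompact (hf.compact_fibre y) (hf.compact_fibre y') hdisj
  obtain ⟨V, hV, hyV, hVU⟩ := hf.exists_open hU hyU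
  obtain ⟨V', hV', hyV', hVU'⟩ := hf.exists_open hU' hyU'
  refine ⟨V, V', hV, hV', hyV, hyV', ?_⟩
  rw [Set.disjoint_left]
  intro z hz hz'
  obtain ⟨x, rfl⟩ := hf.surjective z
  exact Set.disjoint_left.1 hUU' (hVU hz) (hVU' hz')

theorem PerfectMap.locallyCompactSpace {f : X → Y} (hf : PerfectMap f) [LocallyCompactSpace X] :
    LocallyCompactSpace Y := by
  refine ⟨fun y N hN => ?_⟩
  obtain ⟨O, hON, hO, hyO⟩ := mem_nhds_iff.1 hN
  obtain ⟨K, hK, hyK, hKO⟩ := exists_compact_between (hf.compact_fibre y)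
    (hO.preimage hf.continuous) (by
      intro x hx
      rw [mem_preimage, mem_singleton_iff] at hx
      rwa [mem_preimage, hx])
  obtain ⟨V, hV, hyV, hVK⟩ := hf.exists_open isOpen_interior hyK
  refine ⟨f '' K, ?_, ?_, hK.image hf.continuous⟩
  · refine mem_of_superset (hV.mem_nhds hyV) ?_
    intro z hz
    obtain ⟨x, rfl⟩ := hf.surjective z
    exact ⟨x, interior_subset (hVK hz), rfl⟩
  · rintro _ ⟨x, hx, rfl⟩
    exact hON (hKO hx)

end General

/-! ### The Cantor tree space -/

/-- Branches of the binary tree, as a discrete space. -/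
def Br : Type := ℕ → Bool

instance : TopologicalSpace Br := ⊥
instance : DiscreteTopology Br := ⟨rfl⟩

/-- The restriction of a branch to its first `n` values. -/
def res (x : Br) (n : ℕ) : List Bool := (List.range n).map (fun i => x i)

theorem res_length (x : Br) (n : ℕ) : (res x n).length = n := by simp [res]

theorem res_eq {x y : Br} {n m : ℕ} (h : res x n = res y m) : n = m ∧ ∀ i < n, x i = y i := by
  have hnm : n = m := by
    have := congrArg List.length h
    simpa [res_length] using this
  subst hnm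
  refine ⟨rfl, fun i hi => ?_⟩
  have h2 := congrArg (fun l => l[i]?) h
  simpa [res, hi] using h2

theorem exists_ne_of_ne {x y : Br} (h : x ≠ y) : ∃ i, x i ≠ y i := by
  by_contra hcon
  push Not at hcon
  exact h (funext hcon)

/-- The points of the Cantor tree space: nodes and branches. -/
inductive Psi : Type
  | node : List Bool → Psi
  | branch : Br → Psi

open Psi

instance : TopologicalSpace Psi where
  IsOpen U := ∀ x : Br, branch x ∈ U → ∀ᶠ n in atTop, node (res x n) ∈ U
  isOpen_univ := by intro x _; simp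
  isOpen_inter := by
    intro U V hU hV x hx
    exact (hU x hx.1).and (hV x hx.2)
  isOpen_sUnion := by
    intro S hS x hx
    obtain ⟨U, hU, hxU⟩ := hx
    exact (hS U hU x hxU).mono fun n hn => ⟨U, hU, hn⟩

theorem psi_isOpen_iff {U : Set Psi} :
    IsOpen U ↔ ∀ x : Br, branch x ∈ U → ∀ᶠ n in atTop, node (res x n) ∈ U := Iff.rfl

/-- Basic neighbourhoods of a branch. -/
def V (x : Br) (n : ℕ) : Set Psi := insert (branch x) {p | ∃ m, n ≤ m ∧ p = node (res x m)}

theorem isOpen_V (x : Br) (n : ℕ) : IsOpen (V x n) := by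
  rw [psi_isOpen_iff]
  intro y hy
  rcases hy with hy | ⟨m, _, hm⟩
  · have hxy : y = x := by injection hy
    subst hxy
    filter_upwards [eventually_ge_atTop n] with m hm
    exact Or.inr ⟨m, hm, rfl⟩
  · exact absurd hm (by simp)

theorem isOpen_node (s : List Bool) : IsOpen ({node s} : Set Psi) := by
  rw [psi_isOpen_iff]
  intro y hy
  simp at hy

theorem isClosed_V (x : Br) (n : ℕ) : IsClosed (V x n) := by
  rw [← isOpen_compl_iff, psi_isOpen_iff]
  intro y hy
  have hne : x ≠ y := by
    rintro rfl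
    exact hy (Or.inl rfl)
  obtain ⟨i, hi⟩ := exists_ne_of_ne hne
  filter_upwards [eventually_gt_atTop i] with m hm
  rintro (h | ⟨k, _, hk⟩)
  · exact absurd h (by simp)
  · injection hk with hk
    obtain ⟨_, h2⟩ := res_eq hk
    exact hi (h2 i hm).symm

theorem isClosed_node (s : List Bool) : IsClosed ({node s} : Set Psi) := by
  rw [← isOpen_compl_iff, psi_isOpen_iff]
  intro y _
  filter_upwards [eventually_gt_atTop s.length] with m hm
  intro h
  simp only [mem_singleton_iff, node.injEq] at h
  have := congrArg List.length h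
  rw [res_length] at this
  omega

theorem nhds_branch_basis {x : Br} {N : Set Psi} (hN : N ∈ 𝓝 (branch x)) : ∃ n, V x n ⊆ N := by
  obtain ⟨O, hON, hO, hxO⟩ := mem_nhds_iff.1 hN
  obtain ⟨n, hn⟩ := eventually_atTop.1 (psi_isOpen_iff.1 hO x hxO)
  refine ⟨n, ?_⟩
  rintro p (rfl | ⟨m, hm, rfl⟩)
  · exact hON hxO
  · exact hON (hn m hm)

theorem tendsto_node (x : Br) : Tendsto (fun n => node (res x n)) atTop (𝓝 (branch x)) := by
  rw [tendsto_def]
  intro N hN
  obtain ⟨n, hn⟩ := nhds_branch_basis hN
  filter_upwards [eventually_ge_atTop n] with m hm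
  exact hn (Or.inr ⟨m, hm, rfl⟩)

theorem isCompact_V (x : Br) (n : ℕ) : IsCompact (V x n) := by
  have h1 : Tendsto (fun m => node (res x (m + n))) atTop (𝓝 (branch x)) :=
    (tendsto_node x).comp (tendsto_add_atTop_nat n)
  have h2 := h1.isCompact_insert_range
  have h3 : V x n = insert (branch x) (range fun m => node (res x (m + n))) := by
    unfold V
    congr 1
    ext p
    constructor
    · rintro ⟨m, hm, rfl⟩
      exact ⟨m - n, by simp only; rw [Nat.sub_add_cancel hm]⟩
    · rintro ⟨m, rfl⟩
      exact ⟨m + n, by omega, rfl⟩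
  rw [h3]
  exact h2

instance : LocallyCompactSpace Psi := by
  refine ⟨fun p N hN => ?_⟩
  cases p with
  | node s =>
    refine ⟨{node s}, (isOpen_node s).mem_nhds rfl, ?_, isCompact_singleton⟩
    rintro _ rfl
    exact mem_of_mem_nhds hN
  | branch x =>
    obtain ⟨n, hn⟩ := nhds_branch_basis hN
    exact ⟨V x n, (isOpen_V x n).mem_nhds (Or.inl rfl), hn, isCompact_V x n⟩

instance : T2Space Psi := by
  have key : ∀ p q : Psi, p ≠ q → ∃ U : Set Psi, IsOpen U ∧ IsClosed U ∧ p ∈ U ∧ q ∉ U := by
    intro p q hpq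
    cases p with
    | node s =>
      exact ⟨{node s}, isOpen_node s, isClosed_node s, rfl, fun h => hpq h.symm⟩
    | branch x =>
      cases q with
      | node s =>
        refine ⟨{node s}ᶜ, (isClosed_node s).isOpen_compl, (isOpen_node s).isClosed_compl, ?_, ?_⟩
        · simp
        · simp
      | branch y =>
        refine ⟨V x 0, isOpen_V x 0, isClosed_V x 0, Or.inl rfl, ?_⟩
        rintro (h | ⟨m, _, hm⟩)
        · exact hpq h.symm
        · exact absurd hm (by simp)
  refine ⟨fun p q hpq => ?_⟩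
  obtain ⟨U, hU, hU', hpU, hqU⟩ := key p q hpq
  exact ⟨U, Uᶜ, hU, hU'.isOpen_compl, hpU, hqU, disjoint_compl_right⟩

/-- The development of the Cantor tree space. -/
def devPsi (n : ℕ) : Set (Set Psi) := {U | (∃ s, U = {node s}) ∨ ∃ x, U = V x n}

theorem devPsi_open (n : ℕ) : ∀ U ∈ devPsi n, IsOpen U := by
  rintro U (⟨s, rfl⟩ | ⟨x, rfl⟩)
  · exact isOpen_node s
  · exact isOpen_V x n

theorem star_open {Y : Type u} [TopologicalSpace Y] {G : Set (Set Y)} (hG : ∀ U ∈ G, IsOpen U)
    (y : Y) : IsOpen (pointStar y G) := isOpen_sUnion fun U hU => hG U hU.1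

theorem mem_star_devPsi (p : Psi) (n : ℕ) : p ∈ pointStar p (devPsi n) := by
  cases p with
  | node s => exact ⟨{node s}, ⟨Or.inl ⟨s, rfl⟩, rfl⟩, rfl⟩
  | branch x => exact ⟨V x n, ⟨Or.inr ⟨x, rfl⟩, Or.inl rfl⟩, Or.inl rfl⟩

theorem star_devPsi_small (p : Psi) {N : Set Psi} (hN : N ∈ 𝓝 p) :
    ∃ n, pointStar p (devPsi n) ⊆ N := by
  cases p with
  | node s =>
    refine ⟨s.length + 1, ?_⟩
    rintro q ⟨U, ⟨hU, hs⟩, hq⟩
    rcases hU with ⟨t, rfl⟩ | ⟨x, rfl⟩
    · rw [mem_singleton_iff] at hs hq
      rw [hq, ← hs]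
      exact mem_of_mem_nhds hN
    · exfalso
      rcases hs with h | ⟨m, hm, h⟩
      · exact absurd h (by simp)
      · injection h with h
        have := congrArg List.length h
        rw [res_length] at this
        omega
  | branch x =>
    obtain ⟨n, hn⟩ := nhds_branch_basis hN
    refine ⟨n, ?_⟩
    rintro q ⟨U, ⟨hU, hs⟩, hq⟩
    rcases hU with ⟨t, rfl⟩ | ⟨y, rfl⟩
    · exact absurd hs (by simp)
    · rcases hs with h | ⟨m, _, h⟩
      · injection h with h
        subst h
        exact hn hq
      · exact absurd h (by simp)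

/-! ### The spaces `D` and `X` -/

/-- The base space: countably many copies of the Cantor tree space. -/
abbrev D : Type := ℕ × Psi

/-- The space `X`: countably many copies of the product of the Cantor tree space with the
one-point compactification of the discrete set of branches. -/
abbrev X : Type := ℕ × (Psi × OnePoint Br)

theorem developable_D : Developable D := by
  refine ⟨fun n => {S | ∃ k : ℕ, ∃ U ∈ devPsi n, S = {k} ×ˢ U}, fun n => ⟨?_, ?_⟩, ?_⟩
  · rintro S ⟨k, U, hU, rfl⟩
    exact (isOpen_discrete _).prod (devPsi_open n U hU)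
  · rw [eq_univ_iff_forall]
    rintro ⟨k, p⟩
    obtain ⟨U, ⟨hU, hpU⟩, _⟩ := mem_star_devPsi p n
    exact ⟨{k} ×ˢ U, ⟨k, U, hU, rfl⟩, ⟨rfl, hpU⟩⟩
  · rintro ⟨k, p⟩
    refine ⟨fun n => ?_, fun N hN => ?_⟩
    · refine IsOpen.mem_nhds (star_open ?_ _) ?_
      · rintro S ⟨k, U, hU, rfl⟩
        exact (isOpen_discrete _).prod (devPsi_open n U hU)
      · obtain ⟨U, ⟨hU, hpU⟩, _⟩ := mem_star_devPsi p n
        exact ⟨{k} ×ˢ U, ⟨⟨k, U, hU, rfl⟩, ⟨rfl, hpU⟩⟩, ⟨rfl, hpU⟩⟩
    · rw [nhds_prod_eq, nhds_discrete, pure_prod, mem_map] at hN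
      obtain ⟨n, hn⟩ := star_devPsi_small p hN
      refine ⟨n, ?_⟩
      rintro ⟨l, q⟩ ⟨S, ⟨⟨k', U, hU, rfl⟩, hkp⟩, hlq⟩
      obtain ⟨hk, hp⟩ := hkp
      obtain ⟨hl, hq⟩ := hlq
      simp only [mem_singleton_iff] at hk hl
      subst hk
      subst hl
      exact hn ⟨U, ⟨hU, hp⟩, hq⟩

/-- The projection of `X` onto `D`. -/
def g (a : X) : D := (a.1, a.2.1)

theorem perfect_g : PerfectMap g := by
  have h1 : IsProperMap (Prod.map (id : ℕ → ℕ) (Prod.fst : Psi × OnePoint Br → Psi)) :=
    (Homeomorph.refl ℕ).isProperMap.prodMap isProperMap_fst_of_compactSpace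
  have h2 : g = Prod.map (id : ℕ → ℕ) (Prod.fst : Psi × OnePoint Br → Psi) := rfl
  rw [← h2] at h1
  obtain ⟨h3, h4, h5⟩ := isProperMap_iff_isClosedMap_and_compact_fibers.1 h1
  exact ⟨h3, h4, fun d => ⟨(d.1, (d.2, OnePoint.infty)), rfl⟩, h5⟩

/-! ### The space `Y` -/

open Classical in
/-- The gluing: `(k+1, (branch x, x))` is sent to `(k, (branch x, ∞))`. -/
noncomputable def glue (a : X) : X :=
  if h : ∃ (k : ℕ) (x : Br), a = (k + 1, (branch x, (x : OnePoint Br)))
  then (h.choose, (branch h.choose_spec.choose, OnePoint.infty))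
  else a

theorem glue_eq (k : ℕ) (x : Br) :
    glue (k + 1, (branch x, (x : OnePoint Br))) = (k, (branch x, OnePoint.infty)) := by
  have h : ∃ (k' : ℕ) (x' : Br),
      ((k + 1, (branch x, (x : OnePoint Br))) : X) = (k' + 1, (branch x', (x' : OnePoint Br))) :=
    ⟨k, x, rfl⟩
  unfold glue
  rw [dif_pos h]
  have h2 := h.choose_spec.choose_spec
  have h3 : k + 1 = h.choose + 1 := congrArg Prod.fst h2
  have h4 : branch x = branch h.choose_spec.choose := congrArg (fun a : X => a.2.1) h2
  exact Prod.ext (by simp only; omega) (Prod.ext h4.symm rfl)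

theorem glue_eq_self {a : X} (h : ¬ ∃ (k : ℕ) (x : Br), a = (k + 1, (branch x, (x : OnePoint Br)))) :
    glue a = a := by
  unfold glue
  rw [dif_neg h]

/-- The set of points involved in the gluing. -/
def Z : Set X :=
  {a | ∃ (k : ℕ) (x : Br), a = (k, (branch x, (x : OnePoint Br))) ∨
    a = (k, (branch x, OnePoint.infty))}

theorem finite_inter_Z (a : X) : ∃ U : Set X, IsOpen U ∧ a ∈ U ∧ (U ∩ Z).Finite := by
  obtain ⟨k, p, c⟩ := a
  cases p with
  | node s =>
    refine ⟨univ ×ˢ ({node s} ×ˢ univ), isOpen_univ.prod ((isOpen_node s).prod isOpen_univ),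
      ⟨trivial, rfl, trivial⟩, ?_⟩
    convert Set.finite_empty
    rw [Set.eq_empty_iff_forall_notMem]
    rintro ⟨l, q, d⟩ ⟨⟨_, hq, _⟩, ⟨k', x, h | h⟩⟩
    · simp only [mem_singleton_iff] at hq
      subst hq
      simp at h
    · simp only [mem_singleton_iff] at hq
      subst hq
      simp at h
  | branch x =>
    refine ⟨{k} ×ˢ (V x 0 ×ˢ univ), (isOpen_discrete _).prod ((isOpen_V x 0).prod isOpen_univ),
      ⟨rfl, Or.inl rfl, trivial⟩, ?_⟩
    refine Set.Finite.subset (s := {(k, (branch x, (x : OnePoint Br))),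
      (k, (branch x, OnePoint.infty))}) (by simp) ?_
    rintro ⟨l, q, d⟩ ⟨⟨hl, hq, _⟩, ⟨k', y, h⟩⟩
    simp only [mem_singleton_iff] at hl
    subst hl
    rcases hq with hq | ⟨m, _, hq⟩
    · simp only at hq
      subst hq
      rcases h with h | h
      · simp only [Prod.mk.injEq, branch.injEq] at h
        obtain ⟨h1, h2, h3⟩ := h
        subst h1
        subst h2
        subst h3
        exact Or.inl rfl
      · simp only [Prod.mk.injEq, branch.injEq] at h
        obtain ⟨h1, h2, h3⟩ := h
        subst h1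
        subst h2
        subst h3
        exact Or.inr rfl
    · simp only at hq
      subst hq
      rcases h with h | h <;> simp at h

theorem isClosed_of_subset_Z {S : Set X} (hS : S ⊆ Z) : IsClosed S := by
  rw [← isOpen_compl_iff, isOpen_iff_mem_nhds]
  intro a ha
  obtain ⟨U, hU, haU, hfin⟩ := finite_inter_Z a
  have h1 : (U ∩ S).Finite := hfin.subset (inter_subset_inter_right U hS)
  have h2 : IsClosed (U ∩ S) := h1.isClosed
  have h3 : U ∩ (U ∩ S)ᶜ ∈ 𝓝 a :=
    (hU.inter h2.isOpen_compl).mem_nhds ⟨haU, fun h => ha h.2⟩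
  refine mem_of_superset h3 ?_
  rintro b ⟨hb1, hb2⟩ hb3
  exact hb2 ⟨hb1, hb3⟩

theorem glue_cases (a : X) : glue a = a ∨ (a ∈ Z ∧ glue a ∈ Z) := by
  by_cases h : ∃ (k : ℕ) (x : Br), a = (k + 1, (branch x, (x : OnePoint Br)))
  · obtain ⟨k, x, rfl⟩ := h
    rw [glue_eq]
    exact Or.inr ⟨⟨k + 1, x, Or.inl rfl⟩, ⟨k, x, Or.inr rfl⟩⟩
  · exact Or.inl (glue_eq_self h)

/-- Two distinct points are glued only if both of them lie in `Z`. -/
theorem glue_rel {a b : X} (h : glue a = glue b) : a = b ∨ (a ∈ Z ∧ b ∈ Z) := by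
  rcases glue_cases a with ha | ⟨ha, ha'⟩
  · rcases glue_cases b with hb | ⟨hb, hb'⟩
    · left
      rw [← ha, ← hb, h]
    · right
      refine ⟨?_, hb⟩
      rw [← ha, h]
      exact hb'
  · rcases glue_cases b with hb | ⟨hb, _⟩
    · right
      refine ⟨ha, ?_⟩
      rw [← hb, ← h]
      exact ha'
    · exact Or.inr ⟨ha, hb⟩

/-- The gluing relation. -/
noncomputable def glueSetoid : Setoid X := Setoid.ker glue

/-- The space `Y`: the quotient of `X` obtained by identifying `(k, (branch x, ∞))` with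
`(k + 1, (branch x, x))` for all `k` and `x`. -/
abbrev Y : Type := Quotient glueSetoid

/-- The quotient map. -/
noncomputable def f (a : X) : Y := Quotient.mk glueSetoid a

theorem f_eq_iff {a b : X} : f a = f b ↔ glue a = glue b := by
  unfold f
  rw [Quotient.eq]
  exact Iff.rfl

theorem glue_fibre_finite (c : X) : {b : X | glue b = c}.Finite := by
  have hsub : {b : X | glue b = c} ⊆ {c} ∪ {b : X | ∃ (k : ℕ) (x : Br),
      b = (k + 1, (branch x, (x : OnePoint Br))) ∧ c = (k, (branch x, OnePoint.infty))} := by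
    intro b hb
    by_cases h : ∃ (k : ℕ) (x : Br), b = (k + 1, (branch x, (x : OnePoint Br)))
    · obtain ⟨k, x, rfl⟩ := h
      right
      refine ⟨k, x, rfl, ?_⟩
      have hb' : glue (k + 1, (branch x, (x : OnePoint Br))) = c := hb
      rw [glue_eq] at hb'
      exact hb'.symm
    · left
      have hb' : glue b = c := hb
      rw [glue_eq_self h] at hb'
      exact hb'
  refine Set.Finite.subset ((Set.finite_singleton c).union (Set.Subsingleton.finite ?_)) hsub
  rintro b ⟨k, x, rfl, hc⟩ b' ⟨k', x', rfl, hc'⟩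
  rw [hc] at hc'
  simp only [Prod.mk.injEq, branch.injEq] at hc'
  obtain ⟨h1, h2, _⟩ := hc'
  rw [h1, h2]

theorem f_surjective : Function.Surjective f := by
  intro y
  obtain ⟨a, ha⟩ := Quotient.exists_rep y
  exact ⟨a, ha⟩

theorem continuous_f : Continuous f := continuous_quotient_mk'

theorem isClosedMap_f : IsClosedMap f := by
  intro C hC
  have hq : IsQuotientMap f := isQuotientMap_quot_mk
  rw [← hq.isClosed_preimage]
  have h1 : f ⁻¹' (f '' C) = C ∪ ((f ⁻¹' (f '' C)) ∩ Z) := by
    ext b
    constructor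
    · intro hb
      obtain ⟨a, haC, hab⟩ := hb
      rcases glue_rel (f_eq_iff.1 hab) with h | ⟨_, h⟩
      · left
        rw [← h]
        exact haC
      · right
        exact ⟨⟨a, haC, hab⟩, h⟩
    · rintro (hb | hb)
      · exact ⟨b, hb, rfl⟩
      · exact hb.1
  rw [h1]
  exact hC.union (isClosed_of_subset_Z inter_subset_right)

theorem perfect_f : PerfectMap f := by
  refine ⟨continuous_f, isClosedMap_f, f_surjective, fun y => ?_⟩
  obtain ⟨a, rfl⟩ := f_surjective y
  have h : f ⁻¹' {f a} = {b : X | glue b = glue a} := by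
    ext b
    exact f_eq_iff
  rw [h]
  exact (glue_fibre_finite _).isCompact

/-! ### No perfect map from `Y` onto a developable space -/

instance : Uncountable Br := by
  rw [← Cardinal.aleph0_lt_mk_iff]
  have h : Cardinal.mk Br = 2 ^ Cardinal.aleph0 := by
    change Cardinal.mk (ℕ → Bool) = 2 ^ Cardinal.aleph0
    simp
  rw [h]
  exact Cardinal.cantor _

/-- Continuity at infinity: a continuous map from the one-point compactification of `Br` to a
`T1` developable space takes the value at infinity at all but countably many points. -/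
theorem countable_ne {E : Type u} [TopologicalSpace E] [T1Space E] (hE : Developable E)
    (q : OnePoint Br → E) (hq : Continuous q) :
    {x : Br | q (x : OnePoint Br) ≠ q OnePoint.infty}.Countable := by
  obtain ⟨G, _, hG⟩ := hE
  obtain ⟨hG1, hG2⟩ := hG (q OnePoint.infty)
  have hsub : {x : Br | q (x : OnePoint Br) ≠ q OnePoint.infty} ⊆
      ⋃ n, {x : Br | q (x : OnePoint Br) ∉ pointStar (q OnePoint.infty) (G n)} := by
    intro x hx
    obtain ⟨n, hn⟩ := hG2 {q (x : OnePoint Br)}ᶜ (isOpen_compl_singleton.mem_nhds (Ne.symm hx))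
    exact mem_iUnion.2 ⟨n, fun h => hn h rfl⟩
  refine Set.Countable.mono hsub (countable_iUnion fun n => ?_)
  apply Set.Finite.countable
  have h1 : Tendsto (fun x : Br => q (x : OnePoint Br)) (coclosedCompact Br)
      (𝓝 (q OnePoint.infty)) := (hq.tendsto _).comp OnePoint.tendsto_coe_infty
  have h2 := h1 (hG1 n)
  rw [mem_map, mem_coclosedCompact_iff] at h2
  exact h2.finite_of_discrete.subset subset_closure

/-- The key rigidity fact. -/
theorem key {E : Type u} [TopologicalSpace E] [T2Space E] (hE : Developable E)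
    (p : X → E) (hp : Continuous p) (k : ℕ) :
    {x : Br | p (k, (branch x, (x : OnePoint Br))) ≠ p (k, (branch x, OnePoint.infty))}.Countable := by
  have hsub : {x : Br | p (k, (branch x, (x : OnePoint Br))) ≠
      p (k, (branch x, OnePoint.infty))} ⊆
      ⋃ s : List Bool, {x : Br | p (k, (node s, (x : OnePoint Br))) ≠
        p (k, (node s, OnePoint.infty))} := by
    intro x hx
    by_contra hcon
    apply hx
    have h1 : ∀ n, p (k, (node (res x n), (x : OnePoint Br))) =
        p (k, (node (res x n), OnePoint.infty)) := by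
      intro n
      by_contra hne
      exact hcon (mem_iUnion.2 ⟨res x n, hne⟩)
    have h2 : ∀ c : OnePoint Br, Tendsto (fun n => p (k, (node (res x n), c))) atTop
        (𝓝 (p (k, (branch x, c)))) := by
      intro c
      have hc : Continuous (fun r : Psi => p (k, (r, c))) := by fun_prop
      exact (hc.tendsto (branch x)).comp (tendsto_node x)
    have h3 := h2 (x : OnePoint Br)
    have h4 := h2 OnePoint.infty
    simp only [h1] at h3
    exact tendsto_nhds_unique h3 h4
  refine Set.Countable.mono hsub (countable_iUnion fun s => ?_)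
  exact countable_ne hE (fun c => p (k, (node s, c))) (by fun_prop)

theorem no_perfect {E : Type u} [TopologicalSpace E] (hE : Developable E) (h : Y → E) :
    ¬ PerfectMap h := by
  intro hh
  have : T2Space Y := perfect_f.t2Space
  have : T2Space E := hh.t2Space
  have hp : Continuous (h ∘ f) := hh.continuous.comp perfect_f.continuous
  have hprop : IsProperMap (h ∘ f) := hh.isProperMap.comp perfect_f.isProperMap
  have hcount : (⋃ k : ℕ, {x : Br | (h ∘ f) (k, (branch x, (x : OnePoint Br))) ≠
      (h ∘ f) (k, (branch x, OnePoint.infty))}).Countable :=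
    countable_iUnion fun k => key hE (h ∘ f) hp k
  obtain ⟨x, hx⟩ : ∃ x : Br, x ∉ (⋃ k : ℕ, {x : Br | (h ∘ f) (k, (branch x, (x : OnePoint Br))) ≠
      (h ∘ f) (k, (branch x, OnePoint.infty))}) := by
    by_contra hcon
    push Not at hcon
    rw [← eq_univ_iff_forall] at hcon
    rw [hcon] at hcount
    exact not_countable (countable_univ_iff.1 hcount)
  have h1 : ∀ k : ℕ, (h ∘ f) (k, (branch x, (x : OnePoint Br))) =
      (h ∘ f) (k, (branch x, OnePoint.infty)) := by
    intro k
    by_contra hne
    exact hx (mem_iUnion.2 ⟨k, hne⟩)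
  have h2 : ∀ k : ℕ, (h ∘ f) (k + 1, (branch x, (x : OnePoint Br))) =
      (h ∘ f) (k, (branch x, OnePoint.infty)) := by
    intro k
    have : f (k + 1, (branch x, (x : OnePoint Br))) = f (k, (branch x, OnePoint.infty)) := by
      rw [f_eq_iff, glue_eq, glue_eq_self]
      rintro ⟨k', x', hk⟩
      simp at hk
    simp only [Function.comp_apply, this]
  have h3 : ∀ k : ℕ, (h ∘ f) (k, (branch x, OnePoint.infty)) =
      (h ∘ f) (0, (branch x, OnePoint.infty)) := by
    intro k
    induction k with
    | zero => rfl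
    | succ k ih => rw [← h1 (k + 1), h2 k, ih]
  have h4 : IsCompact ((h ∘ f) ⁻¹' {(h ∘ f) (0, (branch x, OnePoint.infty))}) :=
    hprop.isCompact_preimage isCompact_singleton
  have h5 : IsCompact (Prod.fst '' ((h ∘ f) ⁻¹' {(h ∘ f) (0, (branch x, OnePoint.infty))})) :=
    h4.image continuous_fst
  have h6 := h5.finite_of_discrete
  have h7 : (univ : Set ℕ) ⊆
      Prod.fst '' ((h ∘ f) ⁻¹' {(h ∘ f) (0, (branch x, OnePoint.infty))}) := by
    intro k _
    exact ⟨(k, (branch x, OnePoint.infty)), h3 k, rfl⟩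
  exact Set.infinite_univ (h6.subset h7)

/-- **Negative answer to Isiwata's question.** -/
theorem result :
    ∃ (X D Y : Type) (_ : TopologicalSpace X) (_ : TopologicalSpace D) (_ : TopologicalSpace Y)
      (g : X → D) (f : X → Y),
      (T2Space X ∧ LocallyCompactSpace X) ∧
      (T3Space D ∧ LocallyCompactSpace D ∧ Developable D) ∧
      (T2Space Y ∧ LocallyCompactSpace Y) ∧
      PerfectMap g ∧ PerfectMap f ∧
      ∀ (E : Type u) (_ : TopologicalSpace E), Developable E → ∀ h : Y → E, ¬ PerfectMap h := by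
  refine ⟨X, D, Y, inferInstance, inferInstance, inferInstance, g, f,
    ⟨inferInstance, inferInstance⟩, ⟨inferInstance, inferInstance, developable_D⟩,
    ⟨perfect_f.t2Space, perfect_f.locallyCompactSpace⟩, perfect_g, perfect_f, ?_⟩
  intro E _ hE h
  exact no_perfect hE h

end Pool.Agent.Results.MP_5c431f_gt.IsiwataNegative
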